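import Mathlib

/-!
# The polynomials `S n` of problem MP_11e6b7_nt: explicit formula
-/

namespace Pool.Agent.H14.Quart

open Polynomial

/-- The polynomials of the problem. -/
noncomputable def S : ℕ → ℤ[X]
  | 0 => 1
  | 1 => X
  | n + 2 => (X + C (2 * ((n : ℤ) + 1) * ((n : ℤ) + 2))) * S (n + 1) - C (((n : ℤ) + 1) ^ 4) * S n

/-- coefficients in the basis `q k` -/
def A (n k : ℕ) : ℤ := (n.choose k : ℤ) ^ 3 * ((n - k).factorial : ℤ) ^ 2

noncomputable def q (k : ℕ) : ℤ[X] := ∏ j ∈ Finset.range k, (X - C (1 + (j : ℤ) * ((j : ℤ) + 1)))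

theorem q_succ (k : ℕ) : q (k + 1) = q k * (X - C (1 + (k : ℤ) * ((k : ℤ) + 1))) := by
  simp [q, Finset.prod_range_succ]

theorem X_mul_q (k : ℕ) : X * q k = q (k + 1) + C (1 + (k : ℤ) * ((k : ℤ) + 1)) * q k := by
  rw [q_succ]; ring

theorem A_of_lt {n k : ℕ} (h : n < k) : A n k = 0 := by
  simp [A, Nat.choose_eq_zero_of_lt h]

/-- `(m + 1 - k) A (m+1) k = (m+1)^3 A m k`. -/
theorem A_rel1 (m k : ℕ) (h : k ≤ m) :
    ((m : ℤ) + 1 - k) * A (m + 1) k = ((m : ℤ) + 1) ^ 3 * A m k := by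
  unfold A
  have h1 : ((m + 1).choose k : ℤ) * ((m : ℤ) + 1 - k) = (m.choose k : ℤ) * ((m : ℤ) + 1) := by
    have := Nat.choose_mul_succ_eq m k
    have h2 : ((m.choose k * (m + 1) : ℕ) : ℤ) = (((m + 1).choose k * (m + 1 - k) : ℕ) : ℤ) := by
      exact_mod_cast this
    rw [Nat.cast_mul, Nat.cast_mul, Nat.cast_sub (by omega)] at h2
    push_cast at h2
    linarith
  have h3 : m + 1 - k = (m - k) + 1 := by omega
  rw [h3, Nat.factorial_succ]
  have h4 : (((m - k + 1 : ℕ)) : ℤ) = (m : ℤ) + 1 - k := by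
    rw [← h3, Nat.cast_sub (by omega)]; push_cast; ring
  rw [Nat.cast_mul, h4]
  have : ((m : ℤ) + 1 - k) * (((m + 1).choose k : ℤ) ^ 3 * ((((m : ℤ) + 1 - k)) * ((m - k).factorial : ℤ)) ^ 2)
      = (((m + 1).choose k : ℤ) * ((m : ℤ) + 1 - k)) ^ 3 * ((m - k).factorial : ℤ) ^ 2 := by ring
  rw [this, h1]; ring

/-- `(m - k) A m k = (k+1)^3 A m (k+1)`. -/
theorem A_rel2 (m k : ℕ) (h : k ≤ m) :
    ((m : ℤ) - k) * A m k = ((k : ℤ) + 1) ^ 3 * A m (k + 1) := by
  unfold A
  have h1 : (m.choose (k + 1) : ℤ) * ((k : ℤ) + 1) = (m.choose k : ℤ) * ((m : ℤ) - k) := by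
    have := Nat.choose_succ_right_eq m k
    have h2 : ((m.choose (k + 1) * (k + 1) : ℕ) : ℤ) = ((m.choose k * (m - k) : ℕ) : ℤ) := by
      exact_mod_cast this
    rw [Nat.cast_mul, Nat.cast_mul, Nat.cast_sub h] at h2
    push_cast at h2
    linarith
  rcases Nat.eq_or_lt_of_le h with rfl | h5
  · simp
  have h3 : m - k = (m - (k + 1)) + 1 := by omega
  rw [h3, Nat.factorial_succ]
  have h4 : (((m - (k + 1) + 1 : ℕ)) : ℤ) = (m : ℤ) - k := by
    rw [← h3, Nat.cast_sub (by omega)]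
  rw [Nat.cast_mul, h4]
  have : ((k : ℤ) + 1) ^ 3 * ((m.choose (k + 1) : ℤ) ^ 3 * ((m - (k + 1)).factorial : ℤ) ^ 2)
      = ((m.choose (k + 1) : ℤ) * ((k : ℤ) + 1)) ^ 3 * ((m - (k + 1)).factorial : ℤ) ^ 2 := by ring
  rw [this, h1]; ring

theorem A_self (m : ℕ) : A m m = 1 := by simp [A]

theorem A_zero (m : ℕ) : A m 0 = ((m.factorial : ℤ)) ^ 2 := by simp [A]

theorem A_step0 (n : ℕ) :
    A (n + 2) 0 = (1 + 2 * ((n : ℤ) + 1) * ((n : ℤ) + 2)) * A (n + 1) 0 - ((n : ℤ) + 1) ^ 4 * A n 0 := by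
  rw [A_zero, A_zero, A_zero, Nat.factorial_succ (n + 1), Nat.factorial_succ n]
  push_cast; ring

theorem A_step (n k : ℕ) (hk : k ≤ n + 1) :
    A (n + 2) (k + 1) = A (n + 1) k
      + (1 + ((k : ℤ) + 1) * ((k : ℤ) + 2) + 2 * ((n : ℤ) + 1) * ((n : ℤ) + 2)) * A (n + 1) (k + 1)
      - ((n : ℤ) + 1) ^ 4 * A n (k + 1) := by
  rcases Nat.lt_or_ge k (n + 1) with h | h
  · rcases Nat.lt_or_ge k n with h' | h'
    · -- generic case k + 1 ≤ n
      have e1 := A_rel1 (n + 1) (k + 1) (by omega)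
      have e2 := A_rel2 (n + 1) k (by omega)
      have e3 := A_rel1 n (k + 1) (by omega)
      push_cast at e1 e2 e3
      have hpos : ((n : ℤ) + 1 - k) ≠ 0 := by
        have : (k : ℤ) < n := by exact_mod_cast h'
        linarith
      have hpos2 : ((n : ℤ) - k) ≠ 0 := by
        have : (k : ℤ) < n := by exact_mod_cast h'
        linarith
      apply mul_left_cancel₀ hpos
      have f1 : ((n : ℤ) + 1 - k) * A (n + 2) (k + 1) = ((n : ℤ) + 2) ^ 3 * A (n + 1) (k + 1) := by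
        linear_combination e1
      have f2 : ((n : ℤ) + 1 - k) * A (n + 1) k = ((k : ℤ) + 1) ^ 3 * A (n + 1) (k + 1) := by
        linear_combination e2
      have f3 : ((n : ℤ) + 1) ^ 3 * A n (k + 1) = ((n : ℤ) - k) * A (n + 1) (k + 1) := by
        linear_combination -e3
      rw [f1]
      linear_combination -f2 + ((n : ℤ) + 1 - k) * ((n : ℤ) + 1) * f3
    · have : k = n := by omega
      subst this
      have e1 := A_rel1 (k + 1) (k + 1) (by omega)
      have e2 := A_rel2 (k + 1) k (by omega)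
      have e3 : A k (k + 1) = 0 := A_of_lt (by omega)
      rw [A_self] at e1 e2 ⊢
      push_cast at e1 e2
      rw [e3]
      linear_combination e1 - e2
  · have : k = n + 1 := by omega
    subst this
    rw [A_of_lt (show n + 1 < n + 1 + 1 by omega), A_of_lt (show n < n + 1 + 1 by omega),
      A_self (n + 1)]
    rw [show n + 1 + 1 = n + 2 from rfl, A_self]
    ring

theorem S_formula_aux (n : ℕ) :
    S n = ∑ k ∈ Finset.range (n + 1), C (A n k) * q k ∧
    S (n + 1) = ∑ k ∈ Finset.range (n + 2), C (A (n + 1) k) * q k := by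
  induction n with
  | zero =>
    constructor
    · simp [S, A, q]
    · simp [S, A, q, Finset.sum_range_succ]
  | succ n ih =>
    refine ⟨ih.2, ?_⟩
    have hS : S (n + 2) = (X + C (2 * ((n : ℤ) + 1) * ((n : ℤ) + 2))) * S (n + 1)
        - C (((n : ℤ) + 1) ^ 4) * S n := rfl
    rw [show n + 1 + 1 = n + 2 from rfl, hS, ih.1, ih.2]
    have e1 : (X + C (2 * ((n : ℤ) + 1) * ((n : ℤ) + 2))) *
        ∑ k ∈ Finset.range (n + 2), C (A (n + 1) k) * q k
        = ∑ k ∈ Finset.range (n + 2), C (A (n + 1) k) * q (k + 1)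
          + ∑ k ∈ Finset.range (n + 3),
            C ((1 + (k : ℤ) * ((k : ℤ) + 1) + 2 * ((n : ℤ) + 1) * ((n : ℤ) + 2)) * A (n + 1) k) * q k := by
      rw [Finset.sum_range_succ (n := n + 2) (f := fun k : ℕ =>
        C ((1 + (k : ℤ) * ((k : ℤ) + 1) + 2 * ((n : ℤ) + 1) * ((n : ℤ) + 2)) * A (n + 1) k) * q k),
        A_of_lt (show n + 1 < n + 2 by omega), Finset.mul_sum]
      simp only [mul_zero, map_zero, zero_mul, add_zero]
      rw [← Finset.sum_add_distrib]
      apply Finset.sum_congr rfl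
      intro k _
      have := X_mul_q k
      calc (X + C (2 * ((n : ℤ) + 1) * ((n : ℤ) + 2))) * (C (A (n + 1) k) * q k)
          = C (A (n + 1) k) * (X * q k) + C (2 * ((n : ℤ) + 1) * ((n : ℤ) + 2)) * C (A (n + 1) k) * q k := by ring
        _ = _ := by
          rw [this]
          simp only [map_add, map_mul, map_one]
          ring
    have e2 : ∑ k ∈ Finset.range (n + 1), C (A n k) * q k
        = ∑ k ∈ Finset.range (n + 3), C (A n k) * q k := by
      rw [Finset.sum_range_succ (n := n + 2), Finset.sum_range_succ (n := n + 1),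
        A_of_lt (show n < n + 1 by omega), A_of_lt (show n < n + 2 by omega)]
      simp
    rw [e1, e2, Finset.sum_range_succ' (n := n + 2) (f := fun k : ℕ =>
        C ((1 + (k : ℤ) * ((k : ℤ) + 1) + 2 * ((n : ℤ) + 1) * ((n : ℤ) + 2)) * A (n + 1) k) * q k),
      Finset.sum_range_succ' (n := n + 2) (f := fun k : ℕ => C (A n k) * q k),
      Finset.sum_range_succ' (n := n + 2) (f := fun k : ℕ => C (A (n + 2) k) * q k)]
    rw [A_step0]
    have e3 : ∀ k ∈ Finset.range (n + 2), C (A (n + 2) (k + 1)) * q (k + 1)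
        = C (A (n + 1) k) * q (k + 1)
          + C ((1 + ((k + 1 : ℕ) : ℤ) * (((k + 1 : ℕ) : ℤ) + 1) + 2 * ((n : ℤ) + 1) * ((n : ℤ) + 2)) * A (n + 1) (k + 1)) * q (k + 1)
          - C (((n : ℤ) + 1) ^ 4) * (C (A n (k + 1)) * q (k + 1)) := by
      intro k hk
      rw [A_step n k (by have := Finset.mem_range.mp hk; omega)]
      push_cast
      simp only [map_add, map_mul, map_sub, map_one, map_pow, map_ofNat]
      ring
    rw [Finset.sum_congr rfl e3, Finset.sum_sub_distrib, Finset.sum_add_distrib,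
      ← Finset.mul_sum]
    simp only [map_add, map_mul, map_sub, map_one, map_pow, Nat.cast_zero, map_zero, zero_mul]
    ring

theorem S_formula (n : ℕ) : S n = ∑ k ∈ Finset.range (n + 1), C (A n k) * q k :=
  (S_formula_aux n).1

end Pool.Agent.H14.Quart
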