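import Mathlib
import Pool.Agent.H14.Quart.A

/-!
# Products of consecutive linear forms, 2-adic content
-/

namespace Pool.Agent.H14.Quart

open Polynomial

/-- product of `N` consecutive linear forms -/
noncomputable def Pr (c : ℤ) (t N : ℕ) : ℤ[X] :=
  ∏ i ∈ Finset.range N, (C (c + (i : ℤ)) + C ((2 : ℤ) ^ t) * X)

def e : ℕ → ℕ → ℕ
  | 0, _ => 0
  | t + 1, N => N / 2 + e t (N / 2)

theorem Pr_succ (c : ℤ) (t N : ℕ) :
    Pr c t (N + 1) = Pr c t N * (C (c + (N : ℤ)) + C ((2 : ℤ) ^ t) * X) := by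
  simp [Pr, Finset.prod_range_succ]

theorem Pr_zero (c : ℤ) (t : ℕ) : Pr c t 0 = 1 := by simp [Pr]

theorem odd_lin (a : ℤ) (t : ℕ) (h : ¬ (2 : ℤ) ∣ a) :
    (C a + C ((2 : ℤ) ^ (t + 1)) * X).map (Int.castRingHom (ZMod 2)) = 1 := by
  have h1 : ((a : ℤ) : ZMod 2) = 1 := by
    have : ((a : ℤ) : ZMod 2) ≠ 0 := by
      intro h0
      exact h ((ZMod.intCast_zmod_eq_zero_iff_dvd a 2).1 h0)
    revert this
    generalize ((a : ℤ) : ZMod 2) = b
    revert b
    decide
  have h2 : (Int.castRingHom (ZMod 2)) ((2 : ℤ) ^ (t + 1)) = 0 := by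
    rw [map_pow, show (Int.castRingHom (ZMod 2)) 2 = 0 by decide, zero_pow (by omega)]
  rw [Polynomial.map_add, Polynomial.map_mul, Polynomial.map_C, Polynomial.map_C,
    Polynomial.map_X, h2, eq_intCast, h1]
  simp

theorem Pr_pairs (c : ℤ) (t N : ℕ) :
    ∃ O : ℤ[X], O.map (Int.castRingHom (ZMod 2)) = 1 ∧
      Pr c (t + 1) (2 * N) = C ((2 : ℤ) ^ N) * Pr ((c + 1) / 2) t N * O := by
  induction N with
  | zero => exact ⟨1, by simp, by simp [Pr_zero]⟩
  | succ N ih =>
    obtain ⟨O, hO, hP⟩ := ih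
    rw [show 2 * (N + 1) = 2 * N + 1 + 1 by ring, Pr_succ, Pr_succ, hP]
    rcases Int.even_or_odd' c with ⟨d, hd | hd⟩
    · have h1 : (c + 1) / 2 = d := by omega
      rw [h1]
      refine ⟨O * (C (c + ((2 * N + 1 : ℕ) : ℤ)) + C ((2 : ℤ) ^ (t + 1)) * X), ?_, ?_⟩
      · rw [Polynomial.map_mul, hO, odd_lin _ _ (by push_cast; omega), one_mul]
      · rw [Pr_succ]
        have h2 : (C (c + ((2 * N : ℕ) : ℤ)) + C ((2 : ℤ) ^ (t + 1)) * X : ℤ[X])
            = C 2 * (C (d + (N : ℤ)) + C ((2 : ℤ) ^ t) * X) := by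
          have : c + ((2 * N : ℕ) : ℤ) = 2 * (d + N) := by push_cast; omega
          rw [this, pow_succ]
          simp only [map_mul, map_add]
          ring
        have h3 : (C ((2 : ℤ) ^ (N + 1)) : ℤ[X]) = C (2 ^ N) * C 2 := by rw [pow_succ, map_mul]
        rw [h2, h3]
        ring
    · have h1 : (c + 1) / 2 = d + 1 := by omega
      rw [h1]
      refine ⟨O * (C (c + ((2 * N : ℕ) : ℤ)) + C ((2 : ℤ) ^ (t + 1)) * X), ?_, ?_⟩
      · rw [Polynomial.map_mul, hO, odd_lin _ _ (by push_cast; omega), one_mul]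
      · rw [Pr_succ]
        have h2 : (C (c + ((2 * N + 1 : ℕ) : ℤ)) + C ((2 : ℤ) ^ (t + 1)) * X : ℤ[X])
            = C 2 * (C (d + 1 + (N : ℤ)) + C ((2 : ℤ) ^ t) * X) := by
          have : c + ((2 * N + 1 : ℕ) : ℤ) = 2 * (d + 1 + N) := by push_cast; omega
          rw [this, pow_succ]
          simp only [map_mul, map_add]
          ring
        have h3 : (C ((2 : ℤ) ^ (N + 1)) : ℤ[X]) = C (2 ^ N) * C 2 := by rw [pow_succ, map_mul]
        rw [h2, h3]
        ring

theorem content_dvd (t : ℕ) : ∀ (N : ℕ) (c : ℤ), C ((2 : ℤ) ^ e t N) ∣ Pr c t N := by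
  induction t with
  | zero => intro N c; simp [e]
  | succ t ih =>
    intro N c
    have h : Pr c (t + 1) (2 * (N / 2)) ∣ Pr c (t + 1) N := by
      unfold Pr
      exact Finset.prod_dvd_prod_of_subset _ _ _ (Finset.range_subset_range.2 (by omega))
    refine dvd_trans ?_ h
    obtain ⟨O, _, hP⟩ := Pr_pairs c t (N / 2)
    rw [hP, e, pow_add, map_mul]
    exact Dvd.dvd.mul_right (mul_dvd_mul_left _ (ih _ _)) _

theorem content_exact (t : ℕ) : ∀ (B : ℕ) (c : ℤ), ∃ P : ℤ[X],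
    Pr c t (2 ^ t * (2 * B)) = C ((2 : ℤ) ^ e t (2 ^ t * (2 * B))) * P ∧
      P.map (Int.castRingHom (ZMod 2)) = (X * (X + 1)) ^ B := by
  induction t with
  | zero =>
    intro B c
    refine ⟨Pr c 0 (2 * B), by simp [e], ?_⟩
    induction B with
    | zero => simp [Pr_zero]
    | succ B ih =>
      rw [show 2 * (B + 1) = 2 * B + 1 + 1 by ring, Pr_succ, Pr_succ, Polynomial.map_mul,
        Polynomial.map_mul, ih, pow_succ, mul_assoc]
      congr 1
      simp only [pow_zero, map_one, one_mul, Polynomial.map_add, Polynomial.map_C, Polynomial.map_X]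
      have h1 : (Int.castRingHom (ZMod 2)) (c + ((2 * B + 1 : ℕ) : ℤ))
          = (Int.castRingHom (ZMod 2)) (c + ((2 * B : ℕ) : ℤ)) + 1 := by
        push_cast; simp; ring
      rw [h1]
      generalize (Int.castRingHom (ZMod 2)) (c + ((2 * B : ℕ) : ℤ)) = a
      have ha : a = 0 ∨ a = 1 := by revert a; decide
      have h2 : (1 : ZMod 2) + 1 = 0 := by decide
      rcases ha with rfl | rfl
      · simp only [map_zero, zero_add, map_one]; ring
      · rw [h2]; simp only [map_zero, zero_add, map_one]; ring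
  | succ t ih =>
    intro B c
    obtain ⟨O, hO, hP⟩ := Pr_pairs c t (2 ^ t * (2 * B))
    obtain ⟨P, hP1, hP2⟩ := ih B ((c + 1) / 2)
    refine ⟨P * O, ?_, by rw [Polynomial.map_mul, hO, hP2, mul_one]⟩
    have h1 : 2 ^ (t + 1) * (2 * B) = 2 * (2 ^ t * (2 * B)) := by ring
    rw [h1, hP, hP1, e]
    have h2 : 2 * (2 ^ t * (2 * B)) / 2 = 2 ^ t * (2 * B) := by omega
    rw [h2, pow_add, map_mul]
    ring

/-- 2-adic valuation of the factorial -/
def vf (k : ℕ) : ℕ := padicValNat 2 k.factorial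

theorem vf_rec (k : ℕ) : vf k = k / 2 + vf (k / 2) := by
  unfold vf
  have h := padicValNat_factorial_mul_add (p := 2) (n := k % 2) (k / 2) (Nat.mod_lt _ (by norm_num))
  rw [Nat.div_add_mod] at h
  rw [h, padicValNat_factorial_mul]
  ring

theorem vf_mono {a b : ℕ} (h : a ≤ b) : vf a ≤ vf b := by
  unfold vf
  exact (padicValNat_dvd_iff_le (Nat.factorial_ne_zero _)).1
    (dvd_trans pow_padicValNat_dvd (Nat.factorial_dvd_factorial h))

theorem vf_succ (k : ℕ) : vf (k + 1) = vf k + padicValNat 2 (k + 1) := by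
  unfold vf
  rw [Nat.factorial_succ, padicValNat.mul (by omega) (Nat.factorial_ne_zero _)]
  ring

theorem vf_lt_of_even {a b : ℕ} (hb : Even b) (h : a < b) : vf a < vf b := by
  obtain ⟨c, rfl⟩ : ∃ c, b = c + 1 := ⟨b - 1, by omega⟩
  have h1 : vf a ≤ vf c := vf_mono (by omega)
  have h2 : 1 ≤ padicValNat 2 (c + 1) :=
    one_le_padicValNat_of_dvd (by omega) hb.two_dvd
  rw [vf_succ]; omega

/-- sum of the lowest `t` binary digits -/
def dg : ℕ → ℕ → ℕ
  | 0, _ => 0
  | t + 1, k => k % 2 + dg t (k / 2)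

theorem dg_eq_zero (t : ℕ) : ∀ k : ℕ, dg t k = 0 → 2 ^ t ∣ k := by
  induction t with
  | zero => intro k _; simp
  | succ t ih =>
    intro k h
    rw [dg] at h
    obtain ⟨r, hr⟩ := ih (k / 2) (by omega)
    refine ⟨r, ?_⟩
    have : k = 2 * (k / 2) := by omega
    rw [this, hr]; ring

theorem e_half (t k : ℕ) : e t (2 * (k / 2)) = e t k := by
  cases t with
  | zero => rfl
  | succ t => rw [e, e, show 2 * (k / 2) / 2 = k / 2 by omega]

theorem e_add (t : ℕ) : ∀ k : ℕ, e t (2 * k) + 2 * vf (k / 2 ^ t) = 2 * vf k + dg t k := by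
  induction t with
  | zero => intro k; simp [e, dg]
  | succ t ih =>
    intro k
    have h1 := ih (k / 2)
    rw [e_half] at h1
    rw [e, dg, vf_rec k, show 2 * k / 2 = k by omega]
    rw [Nat.div_div_eq_div_mul, ← pow_succ'] at h1
    omega

theorem dg_mul (t q : ℕ) : dg t (2 ^ t * q) = 0 := by
  induction t with
  | zero => rfl
  | succ t ih =>
    rw [dg]
    have h1 : 2 ^ (t + 1) * q = 2 * (2 ^ t * q) := by ring
    rw [h1, show 2 * (2 ^ t * q) / 2 = 2 ^ t * q by omega, ih]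
    omega

theorem choose_odd (t : ℕ) : ∀ n q : ℕ, Odd ((n / 2 ^ t).choose q) → Odd (n.choose (2 ^ t * q)) := by
  induction t with
  | zero => intro n q h; simpa using h
  | succ t ih =>
    intro n q h
    have h1 : n / 2 ^ (t + 1) = n / 2 / 2 ^ t := by
      rw [Nat.div_div_eq_div_mul, ← pow_succ']
    rw [h1] at h
    have h2 := ih (n / 2) q h
    have h3 := Choose.choose_modEq_choose_mod_mul_choose_div_nat (n := n) (k := 2 ^ (t + 1) * q) (p := 2)
    have h4 : 2 ^ (t + 1) * q = 2 * (2 ^ t * q) := by ring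
    rw [h4] at h3 ⊢
    rw [show 2 * (2 ^ t * q) % 2 = 0 by omega, show 2 * (2 ^ t * q) / 2 = 2 ^ t * q by omega,
      Nat.choose_zero_right, one_mul] at h3
    rw [Nat.odd_iff] at h2 ⊢
    rw [← h2]; exact h3

end Pool.Agent.H14.Quart
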