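import Mathlib
import Pool.Agent.H14.Quart.B

/-!
# The reduced primitive part of `S n (1 + s + s^2)` on 2-adic balls
-/

namespace Pool.Agent.H14.Quart

open Polynomial

noncomputable def Q (M : ℕ) : (ZMod 2)[X] :=
  (X * (X + 1)) ^ (2 * (M / 2)) * (X ^ 2 + X + 1) ^ (M % 2)

theorem Q_eq (M : ℕ) : Q M = (X * (X + 1)) ^ M + (if Odd M then (X * (X + 1)) ^ (M - 1) else 0) := by
  unfold Q
  rcases Nat.even_or_odd M with h | h
  · rw [if_neg (Nat.not_odd_iff_even.2 h)]
    have h1 : 2 * (M / 2) = M := by have := Nat.even_iff.1 h; omega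
    rw [h1, Nat.even_iff.1 h]; simp
  · rw [if_pos h]
    have h0 := Nat.odd_iff.1 h
    have h1 : 2 * (M / 2) = M - 1 := by omega
    rw [h1, h0]
    obtain ⟨m, rfl⟩ : ∃ m, M = m + 1 := ⟨M - 1, by omega⟩
    simp only [Nat.add_sub_cancel]
    ring

theorem q_comp (k : ℕ) (s : ℤ) (t : ℕ) :
    (q k).comp ((1 + X + X ^ 2 : ℤ[X]).comp (C s + C ((2 : ℤ) ^ t) * X))
      = Pr (s - k + 1) t (2 * k) := by
  induction k with
  | zero => simp [q, Pr]
  | succ k ih =>
    rw [q_succ, mul_comp, ih]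
    have h1 : Pr (s - ((k + 1 : ℕ) : ℤ) + 1) t (2 * (k + 1))
        = (C (s - (k : ℤ)) + C ((2 : ℤ) ^ t) * X) * Pr (s - k + 1) t (2 * k)
          * (C (s + (k : ℤ) + 1) + C ((2 : ℤ) ^ t) * X) := by
      unfold Pr
      rw [show 2 * (k + 1) = 2 * k + 1 + 1 by ring, Finset.prod_range_succ, Finset.prod_range_succ',
        mul_comm (∏ k_1 ∈ Finset.range (2 * k), _)]
      congr 1
      · congr 1
        · congr 2; push_cast; ring
        · apply Finset.prod_congr rfl
          intro i _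
          congr 2; push_cast; ring
      · congr 2; push_cast; ring
    rw [h1]
    simp only [sub_comp, add_comp, X_comp, C_comp, one_comp, pow_comp]
    simp only [map_add, map_mul, map_sub, map_one]
    ring

theorem natCast_odd {a : ℕ} (h : Odd a) : ((a : ℤ) : ZMod 2) = 1 := by
  obtain ⟨b, rfl⟩ := h
  have h2 : (2 : ZMod 2) = 0 := by decide
  push_cast
  rw [h2]; ring

theorem A_dvd (n k : ℕ) (h : k ≤ n) : ((2 : ℤ) ^ (2 * vf n - 2 * vf k)) ∣ A n k := by
  have h0 : n.choose k ≠ 0 := (Nat.choose_pos h).ne'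
  have h1 : vf n = padicValNat 2 (n.choose k) + vf k + vf (n - k) := by
    unfold vf
    rw [← Nat.choose_mul_factorial_mul_factorial h,
      padicValNat.mul (mul_ne_zero h0 (Nat.factorial_ne_zero _)) (Nat.factorial_ne_zero _),
      padicValNat.mul h0 (Nat.factorial_ne_zero _)]
  have h2 : 2 ^ (2 * vf n - 2 * vf k) ∣ (n.choose k) ^ 3 * (n - k).factorial ^ 2 := by
    rw [padicValNat_dvd_iff_le (by positivity), padicValNat.mul (by positivity) (by positivity),
      padicValNat.pow, padicValNat.pow]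
    have : padicValNat 2 (n - k).factorial = vf (n - k) := rfl
    rw [this]
    omega
  unfold A
  exact_mod_cast h2

theorem A_exact (n k : ℕ) (h : k ≤ n) (ho : Odd (n.choose k)) :
    ∃ w : ℤ, A n k = (2 : ℤ) ^ (2 * vf n - 2 * vf k) * w ∧ (Int.castRingHom (ZMod 2)) w = 1 := by
  have h0 : n.choose k ≠ 0 := (Nat.choose_pos h).ne'
  have hc : padicValNat 2 (n.choose k) = 0 :=
    padicValNat.eq_zero_of_not_dvd (by rw [← even_iff_two_dvd]; exact Nat.not_even_iff_odd.2 ho)
  have h1 : vf n = padicValNat 2 (n.choose k) + vf k + vf (n - k) := by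
    unfold vf
    rw [← Nat.choose_mul_factorial_mul_factorial h,
      padicValNat.mul (mul_ne_zero h0 (Nat.factorial_ne_zero _)) (Nat.factorial_ne_zero _),
      padicValNat.mul h0 (Nat.factorial_ne_zero _)]
  obtain ⟨u, hu⟩ : 2 ^ vf (n - k) ∣ (n - k).factorial := pow_padicValNat_dvd
  have hu' : Odd u := by
    rw [← Nat.not_even_iff_odd, even_iff_two_dvd]
    rintro ⟨v, rfl⟩
    have : 2 ^ (vf (n - k) + 1) ∣ (n - k).factorial := ⟨v, by rw [hu, pow_succ]; ring⟩
    exact pow_succ_padicValNat_not_dvd (Nat.factorial_ne_zero _) this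
  refine ⟨((n.choose k) ^ 3 * u ^ 2 : ℕ), ?_, ?_⟩
  · have : 2 * vf n - 2 * vf k = 2 * vf (n - k) := by omega
    rw [this]
    unfold A
    rw [hu]
    push_cast
    ring
  · rw [eq_intCast]
    exact natCast_odd (ho.pow.mul hu'.pow)

theorem term (n k t : ℕ) (s : ℤ) (hk : k ≤ n) : ∃ g : ℤ[X],
    C (A n k) * Pr (s - k + 1) t (2 * k) = C ((2 : ℤ) ^ (2 * vf n - 2 * vf (n / 2 ^ t))) * g ∧
    g.map (Int.castRingHom (ZMod 2)) =
      (if k = 2 ^ t * (n / 2 ^ t) then (X * (X + 1)) ^ (n / 2 ^ t) else 0) +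
      (if k = 2 ^ t * (n / 2 ^ t - 1) then
        (if Odd (n / 2 ^ t) then (X * (X + 1)) ^ (n / 2 ^ t - 1) else 0) else 0) := by
  have hMn : n / 2 ^ t ≤ n := Nat.div_le_self _ _
  have hqM : k / 2 ^ t ≤ n / 2 ^ t := Nat.div_le_div_right hk
  have hvn : vf k ≤ vf n := vf_mono hk
  have hvM : vf (n / 2 ^ t) ≤ vf n := vf_mono hMn
  have hpos : 0 < 2 ^ t := by positivity
  by_cases hc : 2 ^ t ∣ k ∧ (k / 2 ^ t = n / 2 ^ t ∨ (Odd (n / 2 ^ t) ∧ k / 2 ^ t = n / 2 ^ t - 1))
  · obtain ⟨⟨b, hb⟩, hc2⟩ := hc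
    have hkb : k / 2 ^ t = b := by rw [hb]; exact Nat.mul_div_cancel_left _ hpos
    rw [hkb] at hc2 hqM
    have hodd : Odd ((n / 2 ^ t).choose b) := by
      rcases hc2 with h | ⟨h, h'⟩
      · rw [h]; simp
      · have h3 : b = n / 2 ^ t - 1 := h'
        have h4 : n / 2 ^ t = (n / 2 ^ t - 1) + 1 := by
          have := h.pos; omega
        rw [h3, ← Nat.choose_symm (by omega), show n / 2 ^ t - (n / 2 ^ t - 1) = 1 by omega,
          Nat.choose_one_right]
        exact h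
    have hvb : vf b = vf (n / 2 ^ t) := by
      rcases hc2 with h | ⟨h, h'⟩
      · rw [h]
      · have h4 : n / 2 ^ t = b + 1 := by
          have := h.pos; omega
        rw [h4, vf_succ, padicValNat.eq_zero_of_not_dvd]
        · rfl
        · rw [← even_iff_two_dvd, Nat.not_even_iff_odd, ← h4]; exact h
    obtain ⟨w, hw1, hw2⟩ := A_exact n k hk (by rw [hb]; exact choose_odd t n b hodd)
    obtain ⟨P, hP1, hP2⟩ := content_exact t b (s - k + 1)
    have h2k : 2 ^ t * (2 * b) = 2 * k := by rw [hb]; ring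
    rw [h2k] at hP1
    have he := e_add t k
    have hdg : dg t k = 0 := by rw [hb]; exact dg_mul t b
    rw [hkb, hdg] at he
    refine ⟨C w * P, ?_, ?_⟩
    · rw [hw1, hP1]
      have h5 : (2 : ℤ) ^ (2 * vf n - 2 * vf (n / 2 ^ t)) =
          2 ^ (2 * vf n - 2 * vf k) * 2 ^ e t (2 * k) := by
        rw [← pow_add]; congr 1; omega
      rw [h5]
      simp only [map_mul]
      ring
    · rw [Polynomial.map_mul, Polynomial.map_C, hw2, hP2, map_one, one_mul]
      rcases hc2 with h | ⟨h, h'⟩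
      · rw [if_pos (by rw [hb, h]), if_congr (Iff.rfl) rfl rfl]
        by_cases h6 : k = 2 ^ t * (n / 2 ^ t - 1)
        · have h7 : b = n / 2 ^ t - 1 := by
            rw [hb] at h6
            exact Nat.eq_of_mul_eq_mul_left hpos h6
          have h8 : n / 2 ^ t = 0 := by omega
          rw [if_pos h6, if_neg (by rw [h8]; decide), h, add_zero]
        · rw [if_neg h6, h, add_zero]
      · have h9 : k ≠ 2 ^ t * (n / 2 ^ t) := by
          intro h6
          rw [hb] at h6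
          have h7 := Nat.eq_of_mul_eq_mul_left hpos h6
          have := h.pos
          omega
        rw [if_neg h9, if_pos (by rw [hb, h']), if_pos h, h', zero_add]
  · have h1 : ¬ k = 2 ^ t * (n / 2 ^ t) := by
      intro h
      apply hc
      refine ⟨⟨_, h⟩, Or.inl ?_⟩
      conv_lhs => rw [h]
      exact Nat.mul_div_cancel_left _ hpos
    have h2 : (if k = 2 ^ t * (n / 2 ^ t - 1) then
        (if Odd (n / 2 ^ t) then ((X * (X + 1)) ^ (n / 2 ^ t - 1) : (ZMod 2)[X]) else 0) else 0) = 0 := by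
      by_cases h : k = 2 ^ t * (n / 2 ^ t - 1)
      · rw [if_pos h, if_neg]
        intro ho
        apply hc
        refine ⟨⟨_, h⟩, Or.inr ⟨ho, ?_⟩⟩
        conv_lhs => rw [h]
        exact Nat.mul_div_cancel_left _ hpos
      · rw [if_neg h]
    rw [if_neg h1, h2]
    obtain ⟨a, ha⟩ := A_dvd n k hk
    obtain ⟨P, hP⟩ := content_dvd t (2 * k) (s - k + 1)
    have he := e_add t k
    have hkey : 2 * vf n - 2 * vf (n / 2 ^ t) + 1 ≤ 2 * vf n - 2 * vf k + e t (2 * k) := by
      by_cases hd : dg t k = 0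
      · have hdv := dg_eq_zero t k hd
        have h3 : vf (k / 2 ^ t) < vf (n / 2 ^ t) := by
          have h4 : k / 2 ^ t ≠ n / 2 ^ t := fun h => hc ⟨hdv, Or.inl h⟩
          rcases Nat.even_or_odd (n / 2 ^ t) with h5 | h5
          · exact vf_lt_of_even h5 (by omega)
          · have h6 : k / 2 ^ t ≠ n / 2 ^ t - 1 := fun h => hc ⟨hdv, Or.inr ⟨h5, h⟩⟩
            have h7 : Even (n / 2 ^ t - 1) := by
              obtain ⟨m, hm⟩ := h5
              exact ⟨m, by omega⟩
            have h8 : vf (k / 2 ^ t) < vf (n / 2 ^ t - 1) := vf_lt_of_even h7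
              (Nat.lt_of_le_of_ne (Nat.le_sub_one_of_lt (lt_of_le_of_ne hqM h4)) h6)
            have h9 : vf (n / 2 ^ t - 1) ≤ vf (n / 2 ^ t) := vf_mono (Nat.sub_le _ _)
            omega
        omega
      · have h3 : vf (k / 2 ^ t) ≤ vf (n / 2 ^ t) := vf_mono hqM
        omega
    refine ⟨C (2 ^ ((2 * vf n - 2 * vf k + e t (2 * k)) - (2 * vf n - 2 * vf (n / 2 ^ t) + 1)) * 2 * a) * P,
      ?_, ?_⟩
    · rw [ha, hP, ← mul_assoc, ← map_mul, ← mul_assoc, ← map_mul]
      congr 2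
      have h5 : (2 : ℤ) ^ (2 * vf n - 2 * vf k) * 2 ^ e t (2 * k)
          = 2 ^ (2 * vf n - 2 * vf (n / 2 ^ t)) *
            (2 ^ ((2 * vf n - 2 * vf k + e t (2 * k)) - (2 * vf n - 2 * vf (n / 2 ^ t) + 1)) * 2) := by
        rw [← pow_succ, ← pow_add, ← pow_add]; congr 1; omega
      calc (2 : ℤ) ^ (2 * vf n - 2 * vf k) * a * 2 ^ e t (2 * k)
          = ((2 : ℤ) ^ (2 * vf n - 2 * vf k) * 2 ^ e t (2 * k)) * a := by ring
        _ = _ := by rw [h5]; ring
    · have h6 : ∀ x y : ℤ, (Int.castRingHom (ZMod 2)) (x * 2 * y) = 0 := by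
        intro x y
        rw [map_mul, map_mul, show (Int.castRingHom (ZMod 2)) 2 = 0 by decide]
        ring
      rw [Polynomial.map_mul, Polynomial.map_C, h6, map_zero, zero_mul, add_zero]

/-- Main computation: the content and the reduced primitive part on every 2-adic ball. -/
theorem level (n : ℕ) (s : ℤ) (t : ℕ) : ∃ (c : ℕ) (g : ℤ[X]),
    ((S n).comp (1 + X + X ^ 2)).comp (C s + C ((2 : ℤ) ^ t) * X) = C ((2 : ℤ) ^ c) * g ∧
    g.map (Int.castRingHom (ZMod 2)) = Q (n / 2 ^ t) := by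
  have hterm : ∀ k : ℕ, ∃ g : ℤ[X], k ≤ n →
      C (A n k) * Pr (s - k + 1) t (2 * k) = C ((2 : ℤ) ^ (2 * vf n - 2 * vf (n / 2 ^ t))) * g ∧
      g.map (Int.castRingHom (ZMod 2)) =
      (if k = 2 ^ t * (n / 2 ^ t) then (X * (X + 1)) ^ (n / 2 ^ t) else 0) +
      (if k = 2 ^ t * (n / 2 ^ t - 1) then
        (if Odd (n / 2 ^ t) then (X * (X + 1)) ^ (n / 2 ^ t - 1) else 0) else 0) := by
    intro k
    by_cases hk : k ≤ n
    · obtain ⟨g, hg⟩ := term n k t s hk
      exact ⟨g, fun _ => hg⟩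
    · exact ⟨0, fun h => absurd h hk⟩
  choose g hg using hterm
  refine ⟨2 * vf n - 2 * vf (n / 2 ^ t), ∑ k ∈ Finset.range (n + 1), g k, ?_, ?_⟩
  · rw [S_formula, comp_assoc, Polynomial.sum_comp, Finset.mul_sum]
    apply Finset.sum_congr rfl
    intro k hk
    rw [mul_comp, C_comp, q_comp, (hg k (by have := Finset.mem_range.1 hk; omega)).1]
  · rw [Polynomial.map_sum]
    rw [Finset.sum_congr rfl (fun k hk => (hg k (by have := Finset.mem_range.1 hk; omega)).2)]
    rw [Finset.sum_add_distrib, Finset.sum_ite_eq', Finset.sum_ite_eq', Q_eq]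
    have h1 : 2 ^ t * (n / 2 ^ t) ≤ n := Nat.mul_div_le n (2 ^ t)
    have h2 : 2 ^ t * (n / 2 ^ t - 1) ≤ n :=
      le_trans (Nat.mul_le_mul_left _ (Nat.sub_le _ _)) h1
    rw [if_pos (Finset.mem_range.2 (by omega)), if_pos (Finset.mem_range.2 (by omega))]

end Pool.Agent.H14.Quart
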