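import Mathlib
import Pool.Agent.H14.Quart.C

/-!
# Reduced primitive parts over a ring with residue field `ZMod 2`, and the parity of factors
-/

namespace Pool.Agent.H14.Quart

open Polynomial

section Abstract

set_option linter.unusedSectionVars false

variable {R : Type*} [CommRing R] [IsDomain R] (π : R →+* ZMod 2)

/-- `q` is the reduced primitive part of `p`. -/
def IsRd (p : R[X]) (q : (ZMod 2)[X]) : Prop :=
  q ≠ 0 ∧ ∃ (c : ℕ) (p' : R[X]), p = C ((2 : R) ^ c) * p' ∧ p'.map π = q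

open Classical in
noncomputable def rd (p : R[X]) : (ZMod 2)[X] := if h : ∃ q, IsRd π p q then h.choose else 0

variable {π}

theorem pi_two : π 2 = 0 := by
  rw [map_ofNat]; decide

theorem IsRd.ne_zero {p : R[X]} {q : (ZMod 2)[X]} (h : IsRd π p q) (h2 : (2 : R) ≠ 0) : p ≠ 0 := by
  obtain ⟨hq, c, p', rfl, hp⟩ := h
  intro h0
  rcases mul_eq_zero.1 h0 with h1 | h1
  · rw [C_eq_zero] at h1
    exact pow_ne_zero c h2 h1
  · apply hq; rw [← hp, h1]; simp

theorem IsRd.unique {p : R[X]} {q q' : (ZMod 2)[X]} (h2 : (2 : R) ≠ 0)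
    (h : IsRd π p q) (h' : IsRd π p q') : q = q' := by
  have key : ∀ {q q' : (ZMod 2)[X]} (c d : ℕ) (p1 p2 : R[X]), q ≠ 0 → C ((2 : R) ^ c) * p1 = C ((2 : R) ^ d) * p2 →
      p1.map π = q → p2.map π = q' → c ≤ d → q = q' := by
    intro q q' c d p1 p2 hq he h1 h3 hcd
    obtain ⟨j, rfl⟩ := Nat.exists_eq_add_of_le hcd
    rw [pow_add, map_mul, mul_assoc] at he
    have he' := mul_left_cancel₀ (by rw [Ne, C_eq_zero]; exact pow_ne_zero _ h2) he
    rcases Nat.eq_zero_or_pos j with rfl | hj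
    · simp at he'; rw [← h1, ← h3, he']
    · exfalso; apply hq
      rw [← h1, he', Polynomial.map_mul, Polynomial.map_C, map_pow, pi_two, zero_pow hj.ne']
      simp
  obtain ⟨hq, c, p1, hc, h1⟩ := h
  obtain ⟨hq', d, p2, hd, h3⟩ := h'
  rcases le_total c d with hcd | hcd
  · exact key c d p1 p2 hq (by rw [← hc, hd]) h1 h3 hcd
  · exact (key d c p2 p1 hq' (by rw [← hd, hc]) h3 h1 hcd).symm

theorem rd_eq {p : R[X]} {q : (ZMod 2)[X]} (h2 : (2 : R) ≠ 0) (h : IsRd π p q) : rd π p = q := by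
  have hex : ∃ q, IsRd π p q := ⟨q, h⟩
  unfold rd
  rw [dif_pos hex]
  exact (hex.choose_spec).unique h2 h

theorem IsRd.mul {p r : R[X]} {q s : (ZMod 2)[X]} (h : IsRd π p q) (h' : IsRd π r s) :
    IsRd π (p * r) (q * s) := by
  obtain ⟨hq, c, p1, rfl, h1⟩ := h
  obtain ⟨hs, d, p2, rfl, h3⟩ := h'
  refine ⟨mul_ne_zero hq hs, c + d, p1 * p2, ?_, by rw [Polynomial.map_mul, h1, h3]⟩
  rw [pow_add, map_mul]; ring

theorem exists_isRd [IsNoetherianRing R] (hπ : ∀ x, π x = 0 → (2 : R) ∣ x) {p : R[X]} (hp : p ≠ 0) :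
    ∃ q, IsRd π p q := by
  have hu : ¬ IsUnit (C (2 : R)) := by
    rw [isUnit_C]
    intro h
    have := h.map π
    rw [pi_two] at this
    exact not_isUnit_zero this
  have hfin : FiniteMultiplicity (C (2 : R)) p := FiniteMultiplicity.of_not_isUnit hu hp
  obtain ⟨p', h1, h3⟩ := hfin.exists_eq_pow_mul_and_not_dvd
  refine ⟨p'.map π, ?_, _, p', by rw [map_pow]; exact h1, rfl⟩
  intro h0
  apply h3
  rw [C_dvd_iff_dvd_coeff]
  intro i
  apply hπ
  have := congrArg (fun z => coeff z i) h0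
  simpa using this

theorem IsRd.comp {p : R[X]} {q : (ZMod 2)[X]} (h : IsRd π p q) :
    IsRd π (p.comp (X + 1)) (q.comp (X + 1)) := by
  obtain ⟨hq, c, p1, rfl, h1⟩ := h
  refine ⟨?_, c, p1.comp (X + 1), by simp [mul_comp], ?_⟩
  · intro h0
    apply hq
    have : (q.comp (X + 1)).comp (X - 1) = 0 := by rw [h0]; simp
    rw [comp_assoc] at this
    simpa using this
  · rw [Polynomial.map_comp, h1]; simp

theorem natDegree_le {p : R[X]} {q q' : (ZMod 2)[X]} (h2 : (2 : R) ≠ 0)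
    (h : IsRd π p q) (h' : IsRd π (p.comp (C 2 * X)) q') :
    q'.natDegree ≤ q.rootMultiplicity 0 := by
  obtain ⟨hq, c, p1, rfl, h1⟩ := h
  obtain ⟨hq', d, p2, hd, h3⟩ := h'
  rw [rootMultiplicity_eq_natTrailingDegree']
  have hcoeff : ∀ i, (2 : R) ^ c * (p1.coeff i * 2 ^ i) = 2 ^ d * p2.coeff i := by
    intro i
    have := congrArg (fun z => coeff z i) hd
    simp only [mul_comp, C_comp] at this
    rw [coeff_C_mul, coeff_C_mul, comp_C_mul_X_coeff] at this
    exact this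
  set α := q.natTrailingDegree with hα
  have hα1 : ¬ (2 : R) ∣ p1.coeff α := by
    intro ⟨w, hw⟩
    have h4 : q.coeff α ≠ 0 := by
      have := trailingCoeff_nonzero_iff_nonzero.2 hq
      exact this
    apply h4
    rw [← h1, coeff_map, hw, map_mul, pi_two, zero_mul]
  have hdα : d ≤ c + α := by
    by_contra hlt
    push Not at hlt
    obtain ⟨j, hj⟩ := Nat.exists_eq_add_of_lt hlt
    have h5 := hcoeff α
    rw [hj] at h5
    apply hα1
    have h6 : (2 : R) ^ (c + α) * p1.coeff α = 2 ^ (c + α) * (2 * (2 ^ j * p2.coeff α)) := by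
      calc (2 : R) ^ (c + α) * p1.coeff α = (2 : R) ^ c * (p1.coeff α * 2 ^ α) := by
            rw [pow_add]; ring
        _ = _ := by rw [h5]; rw [pow_add, pow_add, pow_add, pow_one]; ring
    exact ⟨_, mul_left_cancel₀ (pow_ne_zero _ h2) h6⟩
  rw [natDegree_le_iff_coeff_eq_zero]
  intro i hi
  have h5 := hcoeff i
  obtain ⟨j, hj⟩ : ∃ j, c + i = d + (j + 1) := ⟨c + i - d - 1, by omega⟩
  have h6 : (2 : R) ^ d * p2.coeff i = 2 ^ d * (2 * (2 ^ j * p1.coeff i)) := by
    rw [← h5]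
    calc (2 : R) ^ c * (p1.coeff i * 2 ^ i) = 2 ^ (c + i) * p1.coeff i := by rw [pow_add]; ring
      _ = _ := by rw [hj, pow_add, pow_add]; ring
  have h7 := mul_left_cancel₀ (pow_ne_zero _ h2) h6
  rw [← h3, coeff_map, h7, map_mul, pi_two, zero_mul]

/-- substitution of the ball `s + 2^t X` -/
noncomputable def lev (p : R[X]) (s : ℤ) (t : ℕ) : R[X] := p.comp (C (s : R) + C ((2 : R) ^ t) * X)

theorem lev_mul (p r : R[X]) (s : ℤ) (t : ℕ) : lev (p * r) s t = lev p s t * lev r s t := by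
  simp [lev, mul_comp]

theorem lev_succ (p : R[X]) (s : ℤ) (t : ℕ) : lev p s (t + 1) = (lev p s t).comp (C 2 * X) := by
  unfold lev
  rw [comp_assoc]
  congr 1
  simp only [add_comp, mul_comp, C_comp, X_comp, pow_succ, map_mul]
  ring

theorem lev_succ' (p : R[X]) (s : ℤ) (t : ℕ) :
    lev p (s + 2 ^ t) (t + 1) = ((lev p s t).comp (X + 1)).comp (C 2 * X) := by
  unfold lev
  rw [comp_assoc, comp_assoc]
  congr 1
  simp only [add_comp, mul_comp, C_comp, X_comp, one_comp, pow_succ, map_mul, Int.cast_add,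
    Int.cast_pow, Int.cast_ofNat, map_add]
  ring

theorem rootMultiplicity_comp_X_add_one (q : (ZMod 2)[X]) :
    (q.comp (X + 1)).rootMultiplicity 0 = q.rootMultiplicity 1 := by
  have h := rootMultiplicity_eq_rootMultiplicity (p := q) (t := (1 : ZMod 2))
  rw [h, map_one]

end Abstract

theorem Q_zero : Q 0 = 1 := by simp [Q]

end Pool.Agent.H14.Quart
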