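import Mathlib
import Pool.Agent.H14.Quart.D

/-!
# Parity of the degrees of the factors of `S n`
-/

namespace Pool.Agent.H14.Quart

open Polynomial

theorem rootMultiplicity_pow' {K : Type*} [Field K] (p : K[X]) (hp : p ≠ 0) (a : K) (k : ℕ) :
    (p ^ k).rootMultiplicity a = k * p.rootMultiplicity a := by
  induction k with
  | zero => simp
  | succ k ih => rw [pow_succ, rootMultiplicity_mul (mul_ne_zero (pow_ne_zero _ hp) hp), ih]; ring

theorem Xp1 : (X + 1 : (ZMod 2)[X]) = X - C 1 := by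
  have : (C 1 : (ZMod 2)[X]) = -1 := by
    rw [← C_1, ← C_neg]; congr 1
  rw [this]; ring

theorem XX1_ne : (X * (X + 1) : (ZMod 2)[X]) ≠ 0 :=
  mul_ne_zero X_ne_zero (by rw [Xp1]; exact X_sub_C_ne_zero 1)

theorem W_natDegree : (X ^ 2 + X + 1 : (ZMod 2)[X]).natDegree = 2 := by compute_degree!

theorem W_ne : (X ^ 2 + X + 1 : (ZMod 2)[X]) ≠ 0 := by
  intro h
  have := W_natDegree
  rw [h] at this
  simp at this

theorem W_eval (r : ZMod 2) : (X ^ 2 + X + 1 : (ZMod 2)[X]).eval r = 1 := by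
  simp only [eval_add, eval_pow, eval_X, eval_one]
  revert r; decide

theorem W_root (r : ZMod 2) : (X ^ 2 + X + 1 : (ZMod 2)[X]).rootMultiplicity r = 0 := by
  apply rootMultiplicity_eq_zero
  rw [IsRoot, W_eval]; decide

theorem XX1_root (r : ZMod 2) : (X * (X + 1) : (ZMod 2)[X]).rootMultiplicity r = 1 := by
  rw [rootMultiplicity_mul XX1_ne]
  have hr : r = 0 ∨ r = 1 := by revert r; decide
  rcases hr with rfl | rfl
  · have h1 : (X : (ZMod 2)[X]).rootMultiplicity 0 = 1 := by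
      have := rootMultiplicity_X_sub_C_self (x := (0 : ZMod 2))
      simpa using this
    have h2 : (X + 1 : (ZMod 2)[X]).rootMultiplicity 0 = 0 := by
      apply rootMultiplicity_eq_zero; simp [IsRoot]
    rw [h1, h2]
  · have h1 : (X : (ZMod 2)[X]).rootMultiplicity 1 = 0 := by
      apply rootMultiplicity_eq_zero; simp [IsRoot]
    have h2 : (X + 1 : (ZMod 2)[X]).rootMultiplicity 1 = 1 := by
      rw [Xp1]; exact rootMultiplicity_X_sub_C_self
    rw [h1, h2]

theorem Q_ne_zero (M : ℕ) : Q M ≠ 0 :=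
  mul_ne_zero (pow_ne_zero _ XX1_ne) (pow_ne_zero _ W_ne)

theorem Q_root (M : ℕ) (r : ZMod 2) : (Q M).rootMultiplicity r = 2 * (M / 2) := by
  have h := Q_ne_zero M
  unfold Q at h ⊢
  rw [rootMultiplicity_mul h, rootMultiplicity_pow' _ XX1_ne, rootMultiplicity_pow' _ W_ne, XX1_root,
    W_root]
  ring

theorem Q_natDegree (M : ℕ) : (Q M).natDegree = 2 * M := by
  unfold Q
  rw [natDegree_mul (pow_ne_zero _ XX1_ne) (pow_ne_zero _ W_ne), natDegree_pow, natDegree_pow,
    W_natDegree, natDegree_mul X_ne_zero (by rw [Xp1]; exact X_sub_C_ne_zero 1), natDegree_X, Xp1,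
    natDegree_X_sub_C]
  omega

theorem struct {q : (ZMod 2)[X]} {M : ℕ} (h : q ∣ Q M) :
    ∃ c ≤ M % 2, q.natDegree = q.rootMultiplicity 0 + q.rootMultiplicity 1 + 2 * c := by
  have hq : q ≠ 0 := by rintro rfl; exact Q_ne_zero M (zero_dvd_iff.1 h)
  obtain ⟨q1, h1, h1'⟩ := exists_eq_pow_rootMultiplicity_mul_and_not_dvd q hq 0
  have hq1 : q1 ≠ 0 := by rintro rfl; apply hq; rw [h1]; simp
  obtain ⟨q2, h2, h2'⟩ := exists_eq_pow_rootMultiplicity_mul_and_not_dvd q1 hq1 1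
  have hq2 : q2 ≠ 0 := by rintro rfl; apply hq1; rw [h2]; simp
  have hX0 : (X - C 0 : (ZMod 2)[X]) = X := by simp
  have hb : q.rootMultiplicity 1 = q1.rootMultiplicity 1 := by
    conv_lhs => rw [h1]
    rw [rootMultiplicity_mul (by rw [← h1]; exact hq), rootMultiplicity_pow' _ (X_sub_C_ne_zero 0)]
    have : (X - C 0 : (ZMod 2)[X]).rootMultiplicity 1 = 0 := by
      apply rootMultiplicity_eq_zero; simp [IsRoot]
    rw [this]; ring
  have hd : q.natDegree = q.rootMultiplicity 0 + q.rootMultiplicity 1 + q2.natDegree := by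
    conv_lhs => rw [h1]
    rw [natDegree_mul (pow_ne_zero _ (X_sub_C_ne_zero 0)) hq1, natDegree_pow, natDegree_X_sub_C, hb]
    conv_lhs => rw [h2]
    rw [natDegree_mul (pow_ne_zero _ (X_sub_C_ne_zero 1)) hq2, natDegree_pow, natDegree_X_sub_C]
    ring
  have hdvd : q2 ∣ Q M := by
    exact dvd_trans (dvd_trans (Dvd.intro_left _ h2.symm) (Dvd.intro_left _ h1.symm)) h
  have hc1 : IsCoprime (X : (ZMod 2)[X]) q2 := by
    have hp : Irreducible (X : (ZMod 2)[X]) := irreducible_X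
    rw [hp.coprime_iff_not_dvd]
    intro h3
    apply h1'
    rw [hX0, h2]
    exact Dvd.dvd.mul_left h3 _
  have hc2 : IsCoprime (X + 1 : (ZMod 2)[X]) q2 := by
    have hp : Irreducible (X + 1 : (ZMod 2)[X]) := by rw [Xp1]; exact irreducible_X_sub_C 1
    rw [hp.coprime_iff_not_dvd, Xp1]
    exact h2'
  have hdvd2 : q2 ∣ (X ^ 2 + X + 1 : (ZMod 2)[X]) ^ (M % 2) := by
    unfold Q at hdvd
    exact ((hc1.mul_left hc2).pow_left).symm.dvd_of_dvd_mul_left hdvd
  have hM : M % 2 = 0 ∨ M % 2 = 1 := by omega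
  rcases hM with hM | hM
  · rw [hM, pow_zero] at hdvd2
    have : q2.natDegree = 0 := natDegree_eq_zero_of_isUnit (isUnit_of_dvd_one hdvd2)
    exact ⟨0, by omega, by rw [hd, this]⟩
  · rw [hM, pow_one] at hdvd2
    have h3 : q2.natDegree ≤ 2 := by
      have := natDegree_le_of_dvd hdvd2 W_ne
      rwa [W_natDegree] at this
    have h4 : q2.natDegree ≠ 1 := by
      intro h5
      obtain ⟨r, hr⟩ := exists_root_of_degree_eq_one (by
        rw [degree_eq_natDegree hq2, h5]; rfl)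
      have := hr.dvd hdvd2
      rw [IsRoot, W_eval] at this
      exact absurd this (by decide)
    refine ⟨q2.natDegree / 2, by omega, by rw [hd]; omega⟩

section Abstract

set_option linter.unusedSectionVars false

variable {R : Type*} [CommRing R] [IsDomain R] [IsNoetherianRing R] {π : R →+* ZMod 2}

theorem isRd_rd (hπ : ∀ x, π x = 0 → (2 : R) ∣ x) (h2 : (2 : R) ≠ 0) {p : R[X]} (hp : p ≠ 0) :
    IsRd π p (rd π p) := by
  obtain ⟨q, hq⟩ := exists_isRd hπ hp
  rw [rd_eq h2 hq]; exact hq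

theorem lemmaD (hπ : ∀ x, π x = 0 → (2 : R) ∣ x) (h2 : (2 : R) ≠ 0) {F H G : R[X]} {n : ℕ}
    (hG : ∀ (s : ℤ) (t : ℕ), IsRd π (lev G s t) (Q (n / 2 ^ t))) (hFH : F * H = G) (s : ℤ) (t : ℕ) :
    (rd π (lev F s (t + 1))).natDegree = (rd π (lev F s t)).rootMultiplicity 0 ∧
    (rd π (lev F (s + 2 ^ t) (t + 1))).natDegree = (rd π (lev F s t)).rootMultiplicity 1 ∧
    rd π (lev F s t) ∣ Q (n / 2 ^ t) := by
  have hne : ∀ (s : ℤ) (t : ℕ), lev F s t ≠ 0 ∧ lev H s t ≠ 0 := by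
    intro s t
    have h := (hG s t).ne_zero h2
    rw [← hFH, lev_mul] at h
    exact ⟨left_ne_zero_of_mul h, right_ne_zero_of_mul h⟩
  have hF : ∀ (s : ℤ) (t : ℕ), IsRd π (lev F s t) (rd π (lev F s t)) :=
    fun s t => isRd_rd hπ h2 (hne s t).1
  have hH : ∀ (s : ℤ) (t : ℕ), IsRd π (lev H s t) (rd π (lev H s t)) :=
    fun s t => isRd_rd hπ h2 (hne s t).2
  have hmul : ∀ (s : ℤ) (t : ℕ), rd π (lev F s t) * rd π (lev H s t) = Q (n / 2 ^ t) := by
    intro s t
    have h1 := (hF s t).mul (hH s t)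
    rw [← lev_mul, hFH] at h1
    exact h1.unique h2 (hG s t)
  have hhalf : n / 2 ^ (t + 1) = n / 2 ^ t / 2 := by
    rw [Nat.div_div_eq_div_mul, pow_succ]
  have hroot : ∀ r : ZMod 2, (rd π (lev F s t)).rootMultiplicity r
      + (rd π (lev H s t)).rootMultiplicity r = 2 * (n / 2 ^ t / 2) := by
    intro r
    rw [← Q_root (n / 2 ^ t) r, ← hmul s t, rootMultiplicity_mul]
    rw [hmul]; exact Q_ne_zero _
  have hdeg : ∀ s' : ℤ, (rd π (lev F s' (t + 1))).natDegree + (rd π (lev H s' (t + 1))).natDegree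
      = 2 * (n / 2 ^ t / 2) := by
    intro s'
    rw [← hhalf, ← Q_natDegree, ← hmul s' (t + 1), natDegree_mul (hF _ _).1 (hH _ _).1]
  refine ⟨?_, ?_, Dvd.intro _ (hmul s t)⟩
  · have a1 := natDegree_le h2 (hF s t) (by rw [← lev_succ]; exact hF s (t + 1))
    have a2 := natDegree_le h2 (hH s t) (by rw [← lev_succ]; exact hH s (t + 1))
    have a3 := hroot 0
    have a4 := hdeg s
    omega
  · have a1 := natDegree_le h2 (hF s t).comp (by rw [← lev_succ']; exact hF (s + 2 ^ t) (t + 1))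
    have a2 := natDegree_le h2 (hH s t).comp (by rw [← lev_succ']; exact hH (s + 2 ^ t) (t + 1))
    rw [rootMultiplicity_comp_X_add_one] at a1 a2
    have a3 := hroot 1
    have a4 := hdeg (s + 2 ^ t)
    omega

theorem lemmaE (hπ : ∀ x, π x = 0 → (2 : R) ∣ x) (h2 : (2 : R) ≠ 0) {F H G : R[X]} {n : ℕ}
    (hG : ∀ (s : ℤ) (t : ℕ), IsRd π (lev G s t) (Q (n / 2 ^ t))) (hFH : F * H = G) (j : ℕ) :
    ∀ (s : ℤ) (t : ℕ), n < 2 ^ (t + j) → Even (rd π (lev F s t)).natDegree := by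
  induction j with
  | zero =>
    intro s t h
    have h1 := (lemmaD hπ h2 hG hFH s t).2.2
    rw [Nat.div_eq_of_lt (by simpa using h), Q_zero] at h1
    rw [natDegree_eq_zero_of_isUnit (isUnit_of_dvd_one h1)]
    exact Even.zero
  | succ j ih =>
    intro s t h
    obtain ⟨h1, h3, h4⟩ := lemmaD hπ h2 hG hFH s t
    obtain ⟨c, _, hc⟩ := struct h4
    rw [hc, ← h1, ← h3]
    have e1 := ih s (t + 1) (by rw [show t + 1 + j = t + (j + 1) by ring]; exact h)
    have e2 := ih (s + 2 ^ t) (t + 1) (by rw [show t + 1 + j = t + (j + 1) by ring]; exact h)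
    exact (e1.add e2).add (even_two_mul c)

theorem hG_S (n : ℕ) (s : ℤ) (t : ℕ) :
    IsRd π (lev (((S n).map (Int.castRingHom R)).comp (1 + X + X ^ 2)) s t) (Q (n / 2 ^ t)) := by
  obtain ⟨c, g, h1, h3⟩ := level n s t
  refine ⟨Q_ne_zero _, c, g.map (Int.castRingHom R), ?_, ?_⟩
  · have := congrArg (Polynomial.map (Int.castRingHom R)) h1
    simp only [Polynomial.map_comp, Polynomial.map_mul, Polynomial.map_add, Polynomial.map_one,
      Polynomial.map_pow, Polynomial.map_X, Polynomial.map_C] at this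
    unfold lev
    convert this using 3 <;> simp
  · rw [Polynomial.map_map, ← h3]
    congr 1
    exact RingHom.ext_int _ _

/-- the polynomial `1 + X + X^2` -/
theorem comp_root (f : (ZMod 2)[X]) (hf : f ≠ 0) (r : ZMod 2) :
    (f.comp (1 + X + X ^ 2)).rootMultiplicity r = f.rootMultiplicity 1 := by
  obtain ⟨g, h1, h3⟩ := exists_eq_pow_rootMultiplicity_mul_and_not_dvd f hf 1
  have hg : ¬ g.IsRoot 1 := fun h => h3 (dvd_iff_isRoot.2 h)
  have hcomp : f.comp (1 + X + X ^ 2)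
      = (X * (X + 1)) ^ (f.rootMultiplicity 1) * g.comp (1 + X + X ^ 2) := by
    conv_lhs => rw [h1]
    rw [mul_comp, pow_comp]
    congr 2
    simp only [sub_comp, X_comp, map_one, one_comp]
    ring
  have hr : (g.comp (1 + X + X ^ 2)).rootMultiplicity r = 0 := by
    apply rootMultiplicity_eq_zero
    rw [IsRoot, eval_comp]
    have : (1 + X + X ^ 2 : (ZMod 2)[X]).eval r = 1 := by
      simp only [eval_add, eval_pow, eval_X, eval_one]
      revert r; decide
    rw [this]; exact hg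
  have hgne : g.comp (1 + X + X ^ 2) ≠ 0 := by
    intro h0
    apply hg
    have : (g.comp (1 + X + X ^ 2)).eval 0 = 0 := by rw [h0]; simp
    rw [eval_comp] at this
    simpa [IsRoot] using this
  rw [hcomp, rootMultiplicity_mul (mul_ne_zero (pow_ne_zero _ XX1_ne) hgne),
    rootMultiplicity_pow' _ XX1_ne, XX1_root, hr]
  ring

theorem top (hπ : ∀ x, π x = 0 → (2 : R) ∣ x) (h2 : (2 : R) ≠ 0) {n : ℕ} {f : R[X]} (hf : f.Monic)
    (hdvd : f ∣ (S n).map (Int.castRingHom R)) :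
    Even ((f.map π).rootMultiplicity 1) ∧
    ∃ c ≤ n % 2, f.natDegree = (f.map π).rootMultiplicity 1 + c := by
  obtain ⟨h, hh⟩ := hdvd
  have hFH : f.comp (1 + X + X ^ 2) * h.comp (1 + X + X ^ 2)
      = ((S n).map (Int.castRingHom R)).comp (1 + X + X ^ 2) := by
    rw [hh, mul_comp]
  have hG := hG_S (R := R) (π := π) n
  have hfm : (f.map π).Monic := hf.map π
  have hdeg : (1 + X + X ^ 2 : (ZMod 2)[X]).natDegree = 2 := by compute_degree!
  have hrd : rd π (lev (f.comp (1 + X + X ^ 2)) 0 0) = (f.map π).comp (1 + X + X ^ 2) := by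
    apply rd_eq h2
    refine ⟨?_, 0, f.comp (1 + X + X ^ 2), ?_, ?_⟩
    · intro h0
      have h4 : ((f.map π).comp (1 + X + X ^ 2)).natDegree = (f.map π).natDegree * 2 := by
        rw [natDegree_comp, hdeg]
      rw [h0] at h4
      have h5 : (f.map π).natDegree = 0 := by simpa using h4.symm
      have h6 : f.map π = 1 := hfm.natDegree_eq_zero.1 h5
      rw [h6] at h0
      simp at h0
    · simp [lev]
    · rw [Polynomial.map_comp]; simp
  obtain ⟨h1, _, h4⟩ := lemmaD hπ h2 hG hFH 0 0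
  rw [hrd] at h1 h4
  rw [comp_root _ hfm.ne_zero] at h1
  have hlt : n < 2 ^ (1 + n) := by
    calc n < 2 ^ n := Nat.lt_two_pow_self
      _ ≤ 2 ^ (1 + n) := Nat.pow_le_pow_right (by norm_num) (by omega)
  have h5 := lemmaE hπ h2 hG hFH n 0 1 hlt
  rw [show (0 : ℕ) + 1 = 1 from rfl] at h1
  rw [h1] at h5
  refine ⟨h5, ?_⟩
  obtain ⟨c, hc, hd⟩ := struct h4
  rw [natDegree_comp, hdeg, comp_root _ hfm.ne_zero, comp_root _ hfm.ne_zero,
    hf.natDegree_map] at hd
  refine ⟨c, by simpa using hc, by omega⟩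

theorem top_even (hπ : ∀ x, π x = 0 → (2 : R) ∣ x) (h2 : (2 : R) ≠ 0) {n : ℕ} (hn : Even n) {f : R[X]}
    (hf : f.Monic) (hdvd : f ∣ (S n).map (Int.castRingHom R)) : Even f.natDegree := by
  obtain ⟨h1, c, hc, h3⟩ := top hπ h2 hf hdvd
  rw [Nat.even_iff.1 hn] at hc
  rw [h3, Nat.le_zero.1 hc, add_zero]; exact h1

theorem top_two (hπ : ∀ x, π x = 0 → (2 : R) ∣ x) (h2 : (2 : R) ≠ 0) {n : ℕ} {f g : R[X]}
    (hf : f.Monic) (hg : g.Monic) (hdvd : f * g ∣ (S n).map (Int.castRingHom R)) :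
    Even f.natDegree ∨ Even g.natDegree := by
  obtain ⟨a1, c1, hc1, b1⟩ := top hπ h2 hf (dvd_trans (Dvd.intro _ rfl) hdvd)
  obtain ⟨a2, c2, hc2, b2⟩ := top hπ h2 hg (dvd_trans (Dvd.intro_left _ rfl) hdvd)
  obtain ⟨a3, c3, hc3, b3⟩ := top hπ h2 (hf.mul hg) hdvd
  rw [hf.natDegree_mul hg, Polynomial.map_mul,
    rootMultiplicity_mul (mul_ne_zero (hf.map π).ne_zero (hg.map π).ne_zero)] at b3
  have : n % 2 < 2 := Nat.mod_lt _ (by norm_num)
  by_cases h : c1 = 0
  · left; rw [b1, h, add_zero]; exact a1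
  · right
    have : c2 = 0 := by omega
    rw [b2, this, add_zero]; exact a2

end Abstract

end Pool.Agent.H14.Quart
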